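import Pool.Agent.N557.BP.Stm2

set_option autoImplicit false

/-!
Project BP (helper557), leaf R2: the limit of the slices at a vertex is passed on by the reflection in
an adjacent side, also if the slices are continuous on the open polygon only.
-/

namespace Pool.Agent.N793.BP

open Complex Set MeasureTheory Filter Topology Pool.Agent.W780.PG Pool.Agent.W780.BB
  Pool.Agent.TH103.BL Pool.Agent.N557.BP

open scoped Real ComplexConjugate

variable {n : ℕ} {p : Fin (n + 3) → ℂ}

theorem sf_self (p : Fin (n + 3) → ℂ) {i a : Fin (n + 3)} (hia : i = a ∨ i = a + 1) :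
    sf p a (p i) = 0 := by
  rcases hia with rfl | rfl
  · exact Pool.Agent.W82.BB.sf_vertex_left p i
  · have := Pool.Agent.W82.BB.sf_vertex_right p (a + 1)
    rwa [add_sub_cancel_right] at this

/-- the other side at the vertex -/
theorem other (hp : IsConvexPolygon p) {i a : Fin (n + 3)} (hia : i = a ∨ i = a + 1) {θ : ℝ}
    (hsl : sl p i θ * sl p (i - 1) θ < 0) :
    ∃ b : Fin (n + 3), sl p a θ * sl p b θ < 0 ∧ ∀ j, j ≠ a → j ≠ b → 0 < sf p j (p i) := by
  rcases hia with rfl | rfl
  · refine ⟨i - 1, hsl, fun j h1 h2 => hp.pos j i h1.symm ?_⟩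
    rintro h
    exact h2 (by rw [h, add_sub_cancel_right])
  · refine ⟨a + 1, ?_, fun j h1 h2 => hp.pos j (a + 1) h2.symm ?_⟩
    · rw [add_sub_cancel_right, mul_comm] at hsl
      exact hsl
    · intro h
      exact h1 (add_right_cancel h).symm

theorem t_r2 : S_R2 := by
  intro n p hp f _ hI i a hia θ hsl hVL
  obtain ⟨l, hl⟩ := hVL
  refine ⟨l, fun η hη => ?_⟩
  obtain ⟨r', hr', hae⟩ := hl η hη
  have hrr := region_eq hp
  obtain ⟨b, hb, hj⟩ := other hp hia hsl
  have hne : sl p a θ ≠ 0 := by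
    intro h
    rw [h, zero_mul] at hb
    exact lt_irrefl _ hb
  have h0 := sf_self p hia
  set θ' : ℝ := 2 * tau p a - θ with hθ'
  have hnear : ∀ᶠ y in 𝓝 (p i), ∀ j, j ≠ a → j ≠ b → 0 < sf p j y := by
    rw [eventually_all]
    intro j
    by_cases h1 : j ≠ a ∧ j ≠ b
    · filter_upwards [((sf_cont p j).tendsto (p i)).eventually_const_lt (hj j h1.1 h1.2)]
        with y hy _ _ using hy
    · exact Eventually.of_forall fun _ h2 h3 => absurd ⟨h2, h3⟩ h1
  obtain ⟨ε, hε, hnear⟩ := Metric.eventually_nhds_iff.1 hnear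
  set T : ℂ → ℝ := fun z => sf p a z / (- sl p a θ) with hT
  set C : ℝ := ‖p (a + 1) - p a‖ / |sl p a θ| with hC
  have hC0 : 0 ≤ C := by positivity
  have hTC : ∀ z, |T z| ≤ C * ‖z - p i‖ := by
    intro z
    have h1 := sf_lip p a z (p i)
    rw [h0, sub_zero] at h1
    rw [hT]
    simp only
    rw [abs_div, abs_neg, hC, div_mul_eq_mul_div]
    exact div_le_div_of_nonneg_right h1 (abs_nonneg _)
  have hYz : ∀ z, sf p a (z + T z • dir θ) = 0 := by
    intro z
    rw [sf_ray, hT]
    field_simp
    ring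
  have hWY : ∀ (z : ℂ) (q : ℝ),
      rf p a z + q • dir θ' = z + T z • dir θ + (q - T z) • dir θ' := by
    intro z q
    have h1 := rf_fix hp a _ (hYz z)
    rw [rf_ray hp] at h1
    rw [← h1, sub_smul]
    ring
  have hWae : ∀ᵐ z : ℂ, ∀ q : ℚ, rf p a z + (q : ℝ) • dir θ' ∈ region p →
      ‖rf p a z + (q : ℝ) • dir θ' - p i‖ < r' →
      |f (rf p a z + (q : ℝ) • dir θ', θ') - l| ≤ η := by
    rw [ae_all_iff]
    intro q
    exact ((measurePreserving_add_right volume ((q : ℝ) • dir θ')).comp
      (Pool.Agent.W333.BB.mp_rf p a)).quasiMeasurePreserving.ae hae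
  refine ⟨min ε r' / (C + 1), by positivity, ?_⟩
  filter_upwards [hWae] with z hz hzr hzn
  rw [lt_div_iff₀ (by positivity)] at hzn
  have hzreg : z ∈ reg p := hrr ▸ hzr
  set y : ℂ := z + T z • dir θ with hy
  have hyn : ‖y - p i‖ < min ε r' := by
    calc ‖y - p i‖ = ‖(z - p i) + T z • dir θ‖ := by rw [hy]; congr 1; ring
      _ ≤ ‖z - p i‖ + ‖T z • dir θ‖ := norm_add_le _ _
      _ ≤ ‖z - p i‖ + C * ‖z - p i‖ := by
        rw [norm_smul, norm_dir, mul_one, Real.norm_eq_abs]
        linarith [hTC z]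
      _ < _ := by linarith
  have hya : sf p a y = 0 := hYz z
  have hTs : T z * (- sl p a θ) = sf p a z := by
    rw [hT]
    field_simp
  have hza : 0 < sf p a z := hzreg a
  have hyb : 0 < sf p b y := by
    rw [hy, sf_ray]
    have h1 : 0 < sf p b z := hzreg b
    have h2 : 0 < T z * sl p b θ := by
      have h3 : 0 < (T z * (- sl p a θ)) * (-(sl p a θ * sl p b θ)) :=
        mul_pos (by rw [hTs]; exact hza) (by linarith)
      have h4 : (T z * (- sl p a θ)) * (-(sl p a θ * sl p b θ)) =
          (T z * sl p b θ) * (sl p a θ) ^ 2 := by ring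
      rw [h4] at h3
      exact pos_of_mul_pos_left h3 (sq_nonneg _)
    linarith
  have hyj : ∀ j, j ≠ a → 0 < sf p j y := by
    intro j h1
    by_cases h2 : j = b
    · rw [h2]; exact hyb
    · exact hnear (by rw [dist_eq_norm]; exact hyn.trans_le (min_le_left _ _)) j h1 h2
  have hside : y ∈ side p a := Pool.Agent.W82.BB.mem_side hp hya hyj
  have hev : ∀ᶠ s : ℝ in 𝓝 0, (∀ j, j ≠ a → 0 < sf p j (y + s • dir θ')) ∧
      ‖y + s • dir θ' - p i‖ < r' := by
    refine Eventually.and ?_ ?_
    · rw [eventually_all]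
      intro j
      by_cases h1 : j = a
      · exact Eventually.of_forall fun _ h => absurd h1 h
      · have hc : Continuous fun s : ℝ => sf p j (y + s • dir θ') :=
          (sf_cont p j).comp (by fun_prop)
        have h2 : 0 < sf p j (y + (0 : ℝ) • dir θ') := by
          rw [zero_smul, add_zero]; exact hyj j h1
        filter_upwards [(hc.tendsto 0).eventually_const_lt h2] with s hs _ using hs
    · have hc : Continuous fun s : ℝ => ‖y + s • dir θ' - p i‖ := by fun_prop
      have h2 : ‖y + (0 : ℝ) • dir θ' - p i‖ < r' := by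
        rw [zero_smul, add_zero]; exact hyn.trans_le (min_le_right _ _)
      exact (hc.tendsto 0).eventually_lt_const h2
  obtain ⟨δ, hδ, hball⟩ := Metric.eventually_nhds_iff.1 hev
  have hslr : sl p a θ' = - sl p a θ := sl_refl hp a θ
  have hin : ∀ s : ℝ, |s| < δ → 0 < s * (- sl p a θ) →
      y + s • dir θ' ∈ reg p ∧ ‖y + s • dir θ' - p i‖ < r' := by
    intro s h1 h2
    obtain ⟨h3, h4⟩ := hball (y := s) (by rw [Real.dist_eq, sub_zero]; exact h1)
    refine ⟨fun j => ?_, h4⟩
    by_cases h5 : j = a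
    · show 0 < sf p j _
      rw [h5, sf_ray, hya, zero_add, hslr]; exact h2
    · exact h3 j h5
  rcases lt_or_gt_of_ne hne with hneg | hpos
  · have hTpos : 0 < T z := div_pos hza (by linarith)
    obtain ⟨q, hq1, hq2⟩ := exists_rat_btwn (show T z < T z + δ by linarith)
    obtain ⟨h1, h2⟩ := hin ((q : ℝ) - T z) (by rw [abs_of_pos (by linarith)]; linarith)
      (mul_pos (by linarith) (by linarith))
    have h3 := hI.reflect a y hside θ (T z) (q - T z) hTpos (by linarith)
      (by rw [hy, add_sub_cancel_right]; exact hzr) (by rw [hrr]; exact h1)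
    have h4 := hz q (by rw [hWY, hrr]; exact h1) (by rw [hWY]; exact h2)
    rw [hWY] at h4
    have h5 : y - T z • dir θ = z := by rw [hy, add_sub_cancel_right]
    rw [h5] at h3
    rw [h3]
    exact h4
  · have hTneg : T z < 0 := div_neg_of_pos_of_neg hza (by linarith)
    obtain ⟨q, hq1, hq2⟩ := exists_rat_btwn (show T z - δ < T z by linarith)
    obtain ⟨h1, h2⟩ := hin ((q : ℝ) - T z) (by rw [abs_of_neg (by linarith)]; linarith)
      (mul_pos_of_neg_of_neg (by linarith) (by linarith))
    have e1 : y - (T z - q) • dir θ' = y + ((q : ℝ) - T z) • dir θ' := by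
      rw [sub_eq_add_neg, ← neg_smul, neg_sub]
    have e2 : 2 * tau p a - θ' = θ := by rw [hθ']; ring
    have e3 : y + (- T z) • dir θ = z := by
      rw [hy, neg_smul]; ring
    have h3 := hI.reflect a y hside θ' (T z - q) (- T z) (by linarith) (by linarith)
      (by rw [e1, hrr]; exact h1) (by rw [e2, e3]; exact hzr)
    rw [e1, e2, e3] at h3
    have h4 := hz q (by rw [hWY, hrr]; exact h1) (by rw [hWY]; exact h2)
    rw [hWY] at h4
    rw [← h3]
    exact h4

end Pool.Agent.N793.BP
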